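import Pool.Agent.SPX.Stmts
import Pool.Agent.Helper97_ACE.Test

/-!
# SPX, rows EXM and PAR (helper68)
-/

set_option autoImplicit false

open MeasureTheory ProbabilityTheory Filter

open scoped InnerProductSpace ENNReal Topology ComplexConjugate

noncomputable section

namespace Pool.Agent.SPX.H68

open Pool.Agent.Anderson Pool.Agent.Loc Pool.Agent.Helper54.Bal Pool.Agent.SPX

variable {d : ℕ}

/-- row EXM -/
theorem exm : ExmStmt := fun _ V u => Pool.Agent.ACE.exists_repM V u

/-- row PAR -/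
theorem par (hUnm : UnmStmt) : ParStmt := by
  intro d V u μ hμ
  refine ⟨fun v ν ρ S hν hρ => ?_, fun c ρ hρ => ?_, fun E₀ hE => ?_,
    Pool.Agent.ACE.mass_le hμ⟩
  · have h1 : ρ ≤ (2 : ℝ≥0∞) • μ + (2 : ℝ≥0∞) • ν := by
      rw [Measure.le_iff]
      intro N hN
      have h2 := Pool.Agent.ACE.rep_add (V := V) hμ hν hρ hN
      simpa using h2
    have h3 := Measure.le_iff'.1 h1 S
    simpa using h3
  · have i1 : IsFiniteMeasure μ := hμ.1
    have i2 : IsFiniteMeasure ρ := hρ.1
    have i3 : IsFiniteMeasure (ENNReal.ofReal (‖c‖ ^ 2) • μ) :=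
      μ.smul_finite ENNReal.ofReal_ne_top
    refine hUnm _ _ i2 i3 fun z hz => ?_
    rw [← hρ.2 z hz, integral_smul_measure, ← hμ.2 z hz, map_smul, inner_smul_left,
      inner_smul_right, ENNReal.toReal_ofReal (by positivity), ← mul_assoc]
    have h1 : conj c * c = ((‖c‖ ^ 2 : ℝ) : ℂ) := by
      rw [Complex.conj_mul']
      push_cast
      rfl
    rw [h1]
    exact (Complex.real_smul).symm
  · have i1 : IsFiniteMeasure μ := hμ.1
    have i2 : IsFiniteMeasure (ENNReal.ofReal (‖u‖ ^ 2) • Measure.dirac E₀) :=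
      (Measure.dirac E₀).smul_finite ENNReal.ofReal_ne_top
    have h1 : μ = ENNReal.ofReal (‖u‖ ^ 2) • Measure.dirac E₀ := by
      refine hUnm _ _ i1 i2 fun z hz => ?_
      have hne : (E₀ : ℂ) - z ≠ 0 := real_sub_ne hz E₀
      have h2 : ((E₀ : ℂ) - z)⁻¹ • u = G V z u := by
        apply G_unique hz
        intro x
        have h3 := hE x
        have h4 : lap (⇑(((E₀ : ℂ) - z)⁻¹ • u)) x = ((E₀ : ℂ) - z)⁻¹ * lap u x := by
          rw [← Lap_apply, ← Lap_apply, map_smul, lp.coeFn_smul, Pi.smul_apply, smul_eq_mul]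
        rw [h4, lp.coeFn_smul, Pi.smul_apply, smul_eq_mul]
        have h5 : lap u x = (E₀ : ℂ) * u x - (V x : ℂ) * u x := by rw [← h3]; ring
        rw [h5]
        field_simp
        ring
      rw [← hμ.2 z hz, ← h2, inner_smul_right, integral_smul_measure, integral_dirac,
        ENNReal.toReal_ofReal (by positivity), inner_self_eq_norm_sq_to_K]
      rw [Complex.real_smul, mul_comm]
      push_cast
      rfl
    rw [h1]
    simp

end Pool.Agent.SPX.H68
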