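import Pool.Agent.SPX.Stmts
import Pool.Agent.Helper54_SPX.Dom

/-!
# SPX, row SPR (helper68): the spectrum of the Hamiltonian is the line
-/

set_option autoImplicit false

open MeasureTheory ProbabilityTheory Filter

open scoped InnerProductSpace ENNReal Topology ComplexConjugate

noncomputable section

namespace Pool.Agent.SPX.H68

open Pool.Agent.Anderson Pool.Agent.Loc Pool.Agent.Helper54.Bal Pool.Agent.SPX
open Pool.Agent.EXT.H54 (InSpec NoEv)

variable {d : ℕ}

/-- limits in `ℓ²` are pointwise limits -/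
theorem tendsto_apply {f : ℕ → L2 d} {g : L2 d} (h : Tendsto f atTop (𝓝 g)) (x : Site d) :
    Tendsto (fun n => f n x) atTop (𝓝 (g x)) := by
  have h1 : ∀ u : L2 d, u x = ⟪(del x : L2 d), u⟫_ℂ := fun u => (inner_del_left x u).symm
  simp only [h1]
  exact Tendsto.inner tendsto_const_nhds h

theorem tendsto_lap {f : ℕ → L2 d} {g : L2 d} (h : Tendsto f atTop (𝓝 g)) (x : Site d) :
    Tendsto (fun n => lap (f n) x) atTop (𝓝 (lap g x)) := by
  simp only [← Lap_apply]
  exact tendsto_apply (((Lap d).continuous.tendsto g).comp h) x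

/-- row SPR -/
theorem spr : SprStmt := by
  intro d V hV
  ext z
  constructor
  · intro hz
    rw [Set.mem_range]
    by_contra hcon
    have hz' : z.im ≠ 0 := by
      intro h0
      exact hcon ⟨z.re, Complex.ext (by simp) (by simp [h0])⟩
    apply hz
    obtain ⟨h1, h2⟩ := H54.dom d V z hz'
    constructor
    · intro u v huv
      have h3 : G V z (ham V u - z • (u : L2 d)) = G V z (ham V v - z • (v : L2 d)) :=
        congrArg (G V z) huv
      rw [h2, h2] at h3
      exact Subtype.ext h3
    · intro f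
      obtain ⟨h3, h4⟩ := h1 f
      refine ⟨⟨G V z f, h3⟩, ?_⟩
      show ham V ⟨G V z f, h3⟩ - z • G V z f = f
      rw [h4]
      abel
  · rintro ⟨E, rfl⟩ hbij
    -- the inverse
    let A : (ham V).domain →ₗ[ℂ] L2 d :=
      { toFun := fun u => ham V u - (E : ℂ) • (u : L2 d)
        map_add' := fun u v => by
          rw [LinearPMap.map_add, Submodule.coe_add, smul_add]
          abel
        map_smul' := fun c u => by
          rw [LinearPMap.map_smul, Submodule.coe_smul, RingHom.id_apply, smul_sub,
            smul_comm c (E : ℂ)] }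
    let e : (ham V).domain ≃ₗ[ℂ] L2 d := LinearEquiv.ofBijective A hbij
    let B : L2 d →ₗ[ℂ] L2 d := (ham V).domain.subtype.comp e.symm.toLinearMap
    have hB : ∀ f : L2 d, ∃ h : B f ∈ (ham V).domain,
        ham V ⟨B f, h⟩ - (E : ℂ) • B f = f := by
      intro f
      refine ⟨(e.symm f).2, ?_⟩
      have h1 : A (e.symm f) = f := e.apply_symm_apply f
      exact h1
    have hB' : ∀ u : (ham V).domain, B (ham V u - (E : ℂ) • (u : L2 d)) = u := by
      intro u
      have h1 : e.symm (A u) = u := e.symm_apply_apply u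
      exact congrArg (fun v : (ham V).domain => (v : L2 d)) h1
    have hcont : Continuous B := by
      refine B.continuous_of_seq_closed_graph fun f x y hf hy => ?_
      have hpt : ∀ a : Site d, lap y a + (V a : ℂ) * y a - (E : ℂ) * y a = x a := by
        intro a
        have h1 : ∀ n, lap (B (f n)) a + (V a : ℂ) * B (f n) a - (E : ℂ) * B (f n) a =
            f n a := by
          intro n
          obtain ⟨h2, h3⟩ := hB (f n)
          have h4 := congrArg (fun v : L2 d => v a) h3
          simp only [lp.coeFn_sub, Pi.sub_apply, lp.coeFn_smul, Pi.smul_apply, smul_eq_mul] at h4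
          rw [H54.ham_apply] at h4
          exact h4
        have h5 : Tendsto (fun n => lap (B (f n)) a + (V a : ℂ) * B (f n) a -
            (E : ℂ) * B (f n) a) atTop (𝓝 (lap y a + (V a : ℂ) * y a - (E : ℂ) * y a)) :=
          ((tendsto_lap hy a).add ((tendsto_apply hy a).const_mul _)).sub
            ((tendsto_apply hy a).const_mul _)
        simp only [h1] at h5
        exact tendsto_nhds_unique h5 (tendsto_apply hf a)
      have hw : ∀ a, (x + (E : ℂ) • y : L2 d) a = lap y a + (V a : ℂ) * y a := by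
        intro a
        rw [lp.coeFn_add, Pi.add_apply, lp.coeFn_smul, Pi.smul_apply, smul_eq_mul, ← hpt a]
        ring
      have hmem := H54.mem_domain_of hw
      have h6 := H54.ham_eq_of hw hmem
      have h7 := hB' ⟨y, hmem⟩
      rw [h6] at h7
      have h8 : x + (E : ℂ) • y - (E : ℂ) • ((⟨y, hmem⟩ : (ham V).domain) : L2 d) = x := by
        show x + (E : ℂ) • y - (E : ℂ) • y = x
        abel
      rw [h8] at h7
      exact h7.symm
    let Bc : L2 d →L[ℂ] L2 d := ⟨B, hcont⟩
    obtain ⟨φ, h1, -, -, r, h2, h3⟩ := hV E (Set.mem_univ E) (1 / (2 * (‖Bc‖ + 1)))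
      (by positivity)
    have hw : ∀ a, (r + (E : ℂ) • φ : L2 d) a = lap φ a + (V a : ℂ) * φ a := by
      intro a
      rw [lp.coeFn_add, Pi.add_apply, lp.coeFn_smul, Pi.smul_apply, smul_eq_mul, ← h3 a]
      ring
    have hmem := H54.mem_domain_of hw
    have h6 := H54.ham_eq_of hw hmem
    have h7 := hB' ⟨φ, hmem⟩
    rw [h6] at h7
    have h8 : r + (E : ℂ) • φ - (E : ℂ) • ((⟨φ, hmem⟩ : (ham V).domain) : L2 d) = r := by
      show r + (E : ℂ) • φ - (E : ℂ) • φ = r
      abel
    rw [h8] at h7
    have h9 : ‖φ‖ ≤ ‖Bc‖ * ‖r‖ := by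
      have h10 := Bc.le_opNorm r
      have h11 : Bc r = φ := h7
      rwa [h11] at h10
    have h12 : ‖Bc‖ * ‖r‖ ≤ ‖Bc‖ * (1 / (2 * (‖Bc‖ + 1))) :=
      mul_le_mul_of_nonneg_left h2 (norm_nonneg _)
    have h13 : ‖Bc‖ * (1 / (2 * (‖Bc‖ + 1))) < 1 := by
      rw [mul_one_div, div_lt_one (by positivity)]
      linarith [norm_nonneg Bc]
    linarith

end Pool.Agent.SPX.H68
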