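import Pool.Agent.SPX.Stmts
import Pool.Agent.Helper68_HAM.Ham

/-!
# SPX, row SAJ (helper68)
-/

set_option autoImplicit false

noncomputable section

namespace Pool.Agent.SPX.H68

open Pool.Agent.Anderson Pool.Agent.SPX

theorem ham_eq {d : ℕ} (V : Site d → ℝ) : SPX.ham V = HAM.ham V := rfl

/-- row SAJ -/
theorem saj : SajStmt := fun _ V => HAM.ham_selfAdjoint V

end Pool.Agent.SPX.H68
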